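import Pool.Agent.Lib.MP_419f2f_co.Three

set_option autoImplicit false

/-! The number of distinct shortest-cover lengths over the cyclic shifts of a string of length
`n` is at most `44 log n`. -/

namespace Pool.Agent.Results.MP_419f2f_co.LogBound

universe u

/-- `C` is a cover of the string `S`: `C` is non-empty and every position `p` of `S` lies in an
occurrence of `C` in `S`, starting at some position `j`. -/
def IsCover {α : Type u} (C S : List α) : Prop :=
  C ≠ [] ∧ ∀ p < S.length, ∃ j, j ≤ p ∧ p < j + C.length ∧ C <+: S.drop j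

/-- the length of the shortest cover of `S` -/
noncomputable def shCovLen {α : Type u} (S : List α) : ℕ :=
  sInf {m | ∃ C : List α, IsCover C S ∧ C.length = m}

/-- the set of lengths of the shortest covers of the cyclic shifts of `S` -/
noncomputable def cyCoSet {α : Type u} (S : List α) : Finset ℕ :=
  (Finset.range S.length).image (fun i => shCovLen (S.rotate i))

open Pool.Agent.MP419f2f

theorem prefix_drop_iff {α : Type u} {C S : List α} {j : ℕ} (hC : C ≠ []) :
    C <+: S.drop j ↔ (j + C.length ≤ S.length ∧ ∀ k < C.length, S[j + k]? = C[k]?) := by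
  rw [List.prefix_iff_getElem?]
  constructor
  · intro h
    constructor
    · have hpos : 0 < C.length := List.length_pos_iff.2 hC
      have := h (C.length - 1) (by omega)
      rw [List.getElem?_drop] at this
      have h2 := (List.getElem?_eq_some_iff.1 this).1
      omega
    · intro k hk
      have := h k hk
      rw [List.getElem?_drop] at this
      rw [this, List.getElem?_eq_getElem hk]
  · rintro ⟨_, h⟩ k hk
    rw [List.getElem?_drop, h k hk, List.getElem?_eq_getElem hk]

theorem self_cover {α : Type u} {S : List α} (hS : S ≠ []) : IsCover S S := by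
  refine ⟨hS, fun p hp => ⟨0, by omega, by omega, ?_⟩⟩
  simp

/-- the bi-infinite periodic word with period `S` -/
def per {α : Type u} (S : List α) : ℤ → Option α := fun i => S[(i % S.length).toNat]?

theorem per_rotate {α : Type u} (S : List α) (i k : ℕ) (hk : k < S.length) :
    (S.rotate i)[k]? = per S (i + k) := by
  rw [List.getElem?_rotate hk]
  unfold per
  congr 1
  have : ((i : ℤ) + k) % S.length = (((k + i) % S.length : ℕ) : ℤ) := by
    push_cast
    rw [add_comm]
  rw [this, Int.toNat_natCast]

theorem per_add {α : Type u} (S : List α) (i m : ℤ) :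
    per S (i + S.length * m) = per S i := by
  unfold per
  rw [Int.add_mul_emod_self_left]

theorem good_of {α : Type u} (S : List α) (hS : S ≠ []) (i : ℕ) :
    ∃ A : ℤ → Option α, Good (per S) A (shCovLen (S.rotate i)) ∧
      shCovLen (S.rotate i) ≤ S.length := by
  set n := S.length with hn
  have hnpos : 0 < n := List.length_pos_iff.2 hS
  set T := S.rotate i with hT
  have hTlen : T.length = n := by rw [hT, List.length_rotate]
  have hTne : T ≠ [] := by
    intro h
    rw [h] at hTlen
    simp at hTlen
    omega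
  have hne : {m | ∃ C : List α, IsCover C T ∧ C.length = m}.Nonempty :=
    ⟨T.length, T, self_cover hTne, rfl⟩
  obtain ⟨C, hC, hCl⟩ := Nat.sInf_mem hne
  have hCl' : C.length = shCovLen T := hCl
  set l := shCovLen T with hl
  have hle : l ≤ n := by
    rw [← hTlen]
    exact Nat.sInf_le ⟨T, self_cover hTne, rfl⟩
  have hmin : ∀ D : List α, IsCover D T → l ≤ D.length := fun D hD => Nat.sInf_le ⟨D, hD, rfl⟩
  obtain ⟨hCne, hcov⟩ := hC
  have hlpos : 0 < l := by rw [← hCl']; exact List.length_pos_iff.2 hCne
  have hcov' : ∀ p < n, ∃ j, j ≤ p ∧ p < j + l ∧ j + l ≤ n ∧ ∀ k < l, T[j + k]? = C[k]? := by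
    intro p hp
    obtain ⟨j, h1, h2, h3⟩ := hcov p (by omega)
    rw [prefix_drop_iff hCne] at h3
    obtain ⟨h3, h4⟩ := h3
    exact ⟨j, h1, by omega, by omega, fun k hk => h4 k (by omega)⟩
  have hTW : ∀ k < n, T[k]? = per S (i + k) := fun k hk => per_rotate S i k hk
  -- C agrees with the prefix
  have hpre : ∀ k < l, C[k]? = per S (i + k) := by
    intro k hk
    obtain ⟨j, h1, h2, h3, h4⟩ := hcov' 0 hnpos
    have hj : j = 0 := by omega
    subst hj
    rw [← h4 k hk, zero_add, hTW k (by omega)]
  refine ⟨fun k => per S (i + k), ⟨by exact_mod_cast hlpos, ?_, ?_, ?_⟩, hle⟩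
  · -- cov
    intro q
    have e1 := Int.emod_nonneg (q - i) (show (n : ℤ) ≠ 0 by omega)
    have e2 := Int.emod_lt_of_pos (q - i) (show (0 : ℤ) < n by omega)
    have e3 := Int.emod_add_mul_ediv (q - i) n
    obtain ⟨r, hr⟩ := Int.eq_ofNat_of_zero_le e1
    rw [hr] at e2 e3
    obtain ⟨j, h1, h2, h3, h4⟩ := hcov' r (by omega)
    refine ⟨i + j + n * ((q - i) / n), ?_, by omega, by omega⟩
    intro k hk hk'
    obtain ⟨k, rfl⟩ := Int.eq_ofNat_of_zero_le hk
    have hk'' : k < l := by exact_mod_cast hk'
    have f1 := h4 k hk''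
    rw [hTW (j + k) (by omega), hpre k hk''] at f1
    rw [show (i : ℤ) + j + n * ((q - i) / n) + (k : ℤ) = (i + ((j + k : ℕ) : ℤ)) +
      S.length * ((q - i) / n) by push_cast; ring, per_add]
    exact f1
  · -- square
    refine ⟨i, ?_, ?_⟩
    · obtain ⟨j, h1, h2, h3, h4⟩ := hcov' (n - 1) (by omega)
      have hj : j + l = n := by omega
      intro k hk hk'
      obtain ⟨k, rfl⟩ := Int.eq_ofNat_of_zero_le hk
      have hk'' : k < l := by exact_mod_cast hk'
      have f1 := h4 k hk''
      rw [hTW (j + k) (by omega), hpre k hk''] at f1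
      rw [show ((i : ℤ) - l + (k : ℤ)) = (i + ((j + k : ℕ) : ℤ)) + S.length * (-1) by
        push_cast; omega, per_add]
      exact f1
    · intro k _ _
      rfl
  · -- superprimitive
    intro m hm hm' hA
    obtain ⟨m, rfl⟩ := Int.eq_ofNat_of_zero_le hm.le
    have hml : m < l := by exact_mod_cast hm'
    have hm0 : 0 < m := by exact_mod_cast hm
    have hlen : (C.take m).length = m := by
      rw [List.length_take]; omega
    have hD : IsCover (C.take m) T := by
      have hDne : C.take m ≠ [] := by
        intro h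
        rw [h] at hlen
        simp at hlen
        omega
      refine ⟨hDne, ?_⟩
      intro p hp
      obtain ⟨j, h1, h2, h3, h4⟩ := hcov' p (by omega)
      obtain ⟨q, g1, g2, g3, g4, g5⟩ := hA ((p : ℤ) - j) (by omega) (by omega)
      obtain ⟨q, rfl⟩ := Int.eq_ofNat_of_zero_le g1
      refine ⟨j + q, by omega, by omega, ?_⟩
      rw [prefix_drop_iff hDne]
      refine ⟨by omega, ?_⟩
      intro k hk
      rw [hlen] at hk
      have f1 := h4 (q + k) (by omega)
      have f2 := g5 k (by omega) (by exact_mod_cast hk)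
      rw [List.getElem?_take_of_lt hk, add_assoc, f1, hpre _ (by omega), hpre k (by omega)]
      have e : (i : ℤ) + ((q + k : ℕ) : ℤ) = i + (q + k) := by push_cast; ring
      rw [e]
      exact f2
    have := hmin _ hD
    omega

/-- no three shortest-cover lengths of cyclic shifts lie within a factor `1 + 1/20` -/
theorem no_three {α : Type u} (S : List α) (a b c : ℕ) (ha : a ∈ cyCoSet S)
    (hb : b ∈ cyCoSet S) (hc : c ∈ cyCoSet S) (hab : a < b) (hbc : b < c) : 21 * a < 20 * c := by
  by_contra hcon
  unfold cyCoSet at ha hb hc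
  rw [Finset.mem_image] at ha hb hc
  obtain ⟨i, hi, rfl⟩ := ha
  obtain ⟨j, hj, rfl⟩ := hb
  obtain ⟨k, hk, rfl⟩ := hc
  have hS : S ≠ [] := by
    rintro rfl
    simp at hi
  obtain ⟨A, hA, _⟩ := good_of S hS i
  obtain ⟨B, hB, _⟩ := good_of S hS j
  obtain ⟨C, hC, _⟩ := good_of S hS k
  exact three hA hB hC (by exact_mod_cast hab) (by exact_mod_cast hbc) (by omega)

theorem card_le {α : Type u} (S : List α) (hS : 2 ≤ S.length) :
    ((cyCoSet S).card : ℝ) ≤ 44 * Real.log S.length := by
  set n := S.length with hn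
  have hSne : S ≠ [] := by
    rintro rfl
    simp at hn
    omega
  set L : ℝ := Real.log (21 / 20) with hL
  have hLlow : (2 / 41 : ℝ) ≤ L := by
    have := Real.le_log_one_add_of_nonneg (show (0 : ℝ) ≤ 1 / 20 by norm_num)
    have e : (1 : ℝ) + 1 / 20 = 21 / 20 := by norm_num
    rw [e] at this
    calc (2 / 41 : ℝ) = 2 * (1 / 20) / (1 / 20 + 2) := by norm_num
      _ ≤ L := this
  have hLpos : 0 < L := by linarith
  have hlogn : Real.log 2 ≤ Real.log n := by
    apply Real.log_le_log (by norm_num)
    exact_mod_cast hS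
  have hlog2 := Real.log_two_gt_d9
  have hmem : ∀ a ∈ cyCoSet S, 1 ≤ a ∧ a ≤ n := by
    intro a ha
    unfold cyCoSet at ha
    rw [Finset.mem_image] at ha
    obtain ⟨i, hi, rfl⟩ := ha
    obtain ⟨A, hA, h1⟩ := good_of S hSne i
    refine ⟨?_, h1⟩
    have := hA.pos
    omega
  set bin : ℕ → ℕ := fun a => ⌊Real.log a / L⌋₊ with hbin
  have hfib : ∀ t ∈ (cyCoSet S).image bin, ((cyCoSet S).filter (fun a => bin a = t)).card ≤ 2 := by
    intro t _
    by_contra hcon
    push Not at hcon
    -- three distinct elements in increasing order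
    obtain ⟨a, b, c, ha, hb, hc, hab, hbc⟩ : ∃ a b c, a ∈ (cyCoSet S).filter (fun a => bin a = t) ∧
        b ∈ (cyCoSet S).filter (fun a => bin a = t) ∧
        c ∈ (cyCoSet S).filter (fun a => bin a = t) ∧ a < b ∧ b < c := by
      obtain ⟨F, hF, hFc⟩ := Finset.exists_subset_card_eq (show 3 ≤ _ from hcon)
      refine ⟨F.orderEmbOfFin hFc 0, F.orderEmbOfFin hFc 1, F.orderEmbOfFin hFc 2,
        hF (Finset.orderEmbOfFin_mem _ _ _), hF (Finset.orderEmbOfFin_mem _ _ _),
        hF (Finset.orderEmbOfFin_mem _ _ _), ?_, ?_⟩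
      · exact (F.orderEmbOfFin hFc).strictMono (by decide)
      · exact (F.orderEmbOfFin hFc).strictMono (by decide)
    rw [Finset.mem_filter] at ha hb hc
    have h1 := no_three S a b c ha.1 hb.1 hc.1 hab hbc
    have ha1 := (hmem a ha.1).1
    have hapos : (0 : ℝ) < a := by exact_mod_cast ha1
    have hc1 := (hmem c hc.1).1
    have hcpos : (0 : ℝ) < c := by exact_mod_cast hc1
    have ha0 : 0 ≤ Real.log a / L :=
      div_nonneg (Real.log_nonneg (by exact_mod_cast ha1)) hLpos.le
    have f1 : (t : ℝ) ≤ Real.log a / L := by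
      rw [← ha.2]; exact Nat.floor_le ha0
    have f2 : Real.log c / L < t + 1 := by
      rw [← hc.2]; exact Nat.lt_floor_add_one _
    have f3 : Real.log c / L < Real.log a / L + 1 := by linarith
    have f4 : Real.log c < Real.log a + L := by
      have : Real.log a / L + 1 = (Real.log a + L) / L := by
        field_simp
      rw [this] at f3
      exact (div_lt_div_iff_of_pos_right hLpos).1 f3
    rw [hL, ← Real.log_mul hapos.ne' (by norm_num)] at f4
    have f5 := (Real.log_lt_log_iff hcpos (by positivity)).1 f4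
    have f6 : (20 : ℝ) * c < 21 * a := by linarith
    have f7 : 20 * c < 21 * a := by exact_mod_cast f6
    omega
  have h2 := Finset.card_le_mul_card_image (cyCoSet S) 2 hfib
  have h3 : ((cyCoSet S).image bin).card ≤ ⌊Real.log n / L⌋₊ + 1 := by
    rw [← Finset.card_range (⌊Real.log n / L⌋₊ + 1)]
    apply Finset.card_le_card
    intro t ht
    rw [Finset.mem_image] at ht
    obtain ⟨a, ha, rfl⟩ := ht
    rw [Finset.mem_range, Nat.lt_succ_iff]
    apply Nat.floor_le_floor
    apply div_le_div_of_nonneg_right _ hLpos.le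
    apply Real.log_le_log
    · exact_mod_cast (hmem a ha).1
    · exact_mod_cast (hmem a ha).2
  have h4 : ((cyCoSet S).card : ℝ) ≤ 2 * (Real.log n / L + 1) := by
    have h5 : (cyCoSet S).card ≤ 2 * (⌊Real.log n / L⌋₊ + 1) :=
      h2.trans (Nat.mul_le_mul_left 2 h3)
    have h6 : ((cyCoSet S).card : ℝ) ≤ 2 * ((⌊Real.log n / L⌋₊ : ℝ) + 1) := by
      exact_mod_cast h5
    have h7 : (⌊Real.log n / L⌋₊ : ℝ) ≤ Real.log n / L := by
      apply Nat.floor_le
      apply div_nonneg _ hLpos.le
      linarith
    linarith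
  have hlogpos : 0 < Real.log n := by linarith
  have h8 : Real.log n / L ≤ 41 / 2 * Real.log n := by
    rw [div_le_iff₀ hLpos]
    nlinarith
  linarith

/-- **Main theorem.** For every string `S` of length `n ≥ 2` over any alphabet, the cyclic shifts
of `S` have at most `44 log n` distinct shortest-cover lengths. Moreover, for any string, no three
distinct such lengths `a < b < c` satisfy `c ≤ (21/20) a`. -/
theorem result :
    (∀ (α : Type u) (S : List α), 2 ≤ S.length →
      ((cyCoSet S).card : ℝ) ≤ 44 * Real.log S.length) ∧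
    (∀ (α : Type u) (S : List α), ∀ a ∈ cyCoSet S, ∀ b ∈ cyCoSet S, ∀ c ∈ cyCoSet S,
      a < b → b < c → 21 * a < 20 * c) :=
  ⟨fun _ S hS => card_le S hS,
    fun _ S a ha b hb c hc hab hbc => no_three S a b c ha hb hc hab hbc⟩

end Pool.Agent.Results.MP_419f2f_co.LogBound
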